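import Mathlib

set_option autoImplicit false

/-!
# MP_96ce97_co: products of difference sets in finite commutative rings

The rings `(ZMod 2)^n` show that the set `(E - E) * (E - E)` need not contain a subring of bounded
index, for every density `α < 1/2` of `E`.
-/

open Finset
open scoped Pointwise

namespace Pool.Agent.Results.MP_96ce97_co.BooleanRings

/-- The middle binomial coefficient: `(2m+1) C(2m,m)^2 ≤ 16^m`. -/
lemma cb_bound (m : ℕ) : (2 * m + 1) * (Nat.centralBinom m) ^ 2 ≤ 16 ^ m := by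
  induction m with
  | zero => simp
  | succ m ih =>
    have h := Nat.succ_mul_centralBinom_succ m
    have h2 : (m + 1) ^ 2 * ((2 * (m + 1) + 1) * (Nat.centralBinom (m + 1)) ^ 2) ≤
        (m + 1) ^ 2 * 16 ^ (m + 1) := by
      calc (m + 1) ^ 2 * ((2 * (m + 1) + 1) * (Nat.centralBinom (m + 1)) ^ 2)
          = (2 * m + 3) * ((m + 1) * Nat.centralBinom (m + 1)) ^ 2 := by ring
        _ = (2 * m + 3) * (2 * (2 * m + 1) * Nat.centralBinom m) ^ 2 := by rw [h]
        _ = 4 * ((2 * m + 3) * (2 * m + 1)) * ((2 * m + 1) * (Nat.centralBinom m) ^ 2) := by ring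
        _ ≤ 4 * ((2 * m + 3) * (2 * m + 1)) * 16 ^ m := by gcongr
        _ ≤ 4 * (4 * (m + 1) ^ 2) * 16 ^ m := by
            apply Nat.mul_le_mul_right
            apply Nat.mul_le_mul_left
            nlinarith
        _ = (m + 1) ^ 2 * 16 ^ (m + 1) := by ring
    exact Nat.le_of_mul_le_mul_left h2 (by positivity)

/-- support of a vector -/
def supp {n : ℕ} (x : Fin n → ZMod 2) : Finset (Fin n) := univ.filter (fun i => x i ≠ 0)

/-- the heavy vectors -/
def heavy (m t : ℕ) : Finset (Fin (2 * m) → ZMod 2) :=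
  univ.filter (fun x => m + t ≤ (supp x).card)

lemma zmod2 (a : ZMod 2) : a = 0 ∨ a = 1 := by
  fin_cases a
  · left; rfl
  · right; rfl

/-- the difference of two heavy vectors is not very heavy -/
lemma supp_sub {m t : ℕ} {x y : Fin (2 * m) → ZMod 2} (hx : x ∈ heavy m t) (hy : y ∈ heavy m t) :
    (supp (x - y)).card + 2 * t ≤ 2 * m := by
  simp only [heavy, mem_filter, mem_univ, true_and] at hx hy
  have h1 : supp (x - y) ⊆ (supp x ∩ supp y)ᶜ := by
    intro i hi
    simp only [supp, mem_filter, mem_univ, true_and, mem_compl, mem_inter] at hi ⊢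
    rintro ⟨h1, h2⟩
    apply hi
    rcases zmod2 (x i) with h | h
    · exact absurd h h1
    rcases zmod2 (y i) with h' | h'
    · exact absurd h' h2
    simp [h, h']
  have h2 := card_le_card h1
  rw [card_compl, Fintype.card_fin] at h2
  have h3 := card_union_add_card_inter (supp x) (supp y)
  have h4 : (supp x ∪ supp y).card ≤ 2 * m := by
    simpa using card_le_univ (supp x ∪ supp y)
  have h5 : (supp x ∩ supp y).card ≤ 2 * m := by
    simpa using card_le_univ (supp x ∩ supp y)
  omega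

lemma supp_mul {n : ℕ} (x y : Fin n → ZMod 2) : supp (x * y) ⊆ supp x := by
  intro i hi
  simp only [supp, mem_filter, mem_univ, true_and] at hi ⊢
  intro h
  apply hi
  simp [h]

lemma supp_union {n : ℕ} (x y : Fin n → ZMod 2) : supp (x + y + x * y) = supp x ∪ supp y := by
  ext i
  simp only [supp, mem_filter, mem_univ, true_and, mem_union, Pi.add_apply, Pi.mul_apply]
  generalize x i = a
  generalize y i = b
  revert a b
  decide

/-- indicator vectors -/
def ind {n : ℕ} (s : Finset (Fin n)) : Fin n → ZMod 2 := fun i => if i ∈ s then 1 else 0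

lemma supp_ind {n : ℕ} (s : Finset (Fin n)) : supp (ind s) = s := by
  ext i
  simp [supp, ind]

lemma ind_supp {n : ℕ} (x : Fin n → ZMod 2) : ind (supp x) = x := by
  ext i
  simp only [ind, supp, mem_filter, mem_univ, true_and]
  rcases zmod2 (x i) with h | h <;> simp [h]

lemma ind_inj {n : ℕ} : Function.Injective (ind : Finset (Fin n) → _) := by
  intro s t h
  rw [← supp_ind s, h, supp_ind]

lemma supp_inj {n : ℕ} : Function.Injective (supp : (Fin n → ZMod 2) → _) := by
  intro s t h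
  rw [← ind_supp s, h, ind_supp]

lemma heavy_card (m t : ℕ) :
    (heavy m t).card = (univ.filter (fun s : Finset (Fin (2 * m)) => m + t ≤ s.card)).card := by
  apply Finset.card_bij (fun x _ => supp x)
  · intro x hx
    simpa [heavy] using hx
  · intro x _ y _ h
    exact supp_inj h
  · intro s hs
    refine ⟨ind s, ?_, supp_ind s⟩
    simpa [heavy, supp_ind] using hs

lemma mid_card (m t : ℕ) :
    (univ.filter (fun s : Finset (Fin (2 * m)) => m < s.card + t ∧ s.card < m + t)).card ≤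
      2 * t * Nat.centralBinom m := by
  have h1 : (univ.filter (fun s : Finset (Fin (2 * m)) => m < s.card + t ∧ s.card < m + t)) ⊆
      (Finset.Ioo (m - t : ℤ) (m + t)).toList.toFinset.biUnion
        (fun w => Finset.powersetCard w.toNat (univ : Finset (Fin (2 * m)))) := by
    intro s hs
    simp only [mem_filter, mem_univ, true_and] at hs
    simp only [mem_biUnion, List.mem_toFinset, mem_toList, mem_Ioo, mem_powersetCard,
      subset_univ, true_and]
    refine ⟨(s.card : ℤ), ⟨by omega, by omega⟩, by simp⟩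
  refine (card_le_card h1).trans ?_
  refine card_biUnion_le.trans ?_
  have h2 : ∀ w ∈ (Finset.Ioo (m - t : ℤ) (m + t)).toList.toFinset,
      (Finset.powersetCard w.toNat (univ : Finset (Fin (2 * m)))).card ≤ Nat.centralBinom m := by
    intro w _
    rw [card_powersetCard, card_univ, Fintype.card_fin]
    exact Nat.choose_le_centralBinom _ _
  refine (Finset.sum_le_card_nsmul _ _ _ h2).trans ?_
  rw [smul_eq_mul]
  apply Nat.mul_le_mul_right
  rw [Finset.toList_toFinset, Int.card_Ioo]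
  omega

lemma heavy_low (m t : ℕ) :
    (univ.filter (fun s : Finset (Fin (2 * m)) => m + t ≤ s.card)).card =
    (univ.filter (fun s : Finset (Fin (2 * m)) => s.card + t ≤ m)).card := by
  apply Finset.card_bij (fun s _ => sᶜ)
  · intro s hs
    simp only [mem_filter, mem_univ, true_and] at hs ⊢
    have h := card_le_univ s
    rw [card_compl, Fintype.card_fin]
    rw [Fintype.card_fin] at h
    omega
  · intro s _ s' _ h
    exact compl_injective h
  · intro s hs
    refine ⟨sᶜ, ?_, compl_compl s⟩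
    simp only [mem_filter, mem_univ, true_and] at hs ⊢
    have h := card_le_univ s
    rw [card_compl, Fintype.card_fin]
    rw [Fintype.card_fin] at h
    omega

lemma heavy_ge (m t : ℕ) : 4 ^ m ≤ 2 * (heavy m t).card + 2 * t * Nat.centralBinom m := by
  have hU : (univ : Finset (Finset (Fin (2 * m)))) ⊆
      (univ.filter (fun s : Finset (Fin (2 * m)) => m + t ≤ s.card)) ∪
      (univ.filter (fun s : Finset (Fin (2 * m)) => s.card + t ≤ m)) ∪
      (univ.filter (fun s : Finset (Fin (2 * m)) => m < s.card + t ∧ s.card < m + t)) := by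
    intro s _
    simp only [mem_union, mem_filter, mem_univ, true_and]
    omega
  have h := card_le_card hU
  have h1 := card_union_le
    ((univ.filter (fun s : Finset (Fin (2 * m)) => m + t ≤ s.card)) ∪
      (univ.filter (fun s : Finset (Fin (2 * m)) => s.card + t ≤ m)))
    (univ.filter (fun s : Finset (Fin (2 * m)) => m < s.card + t ∧ s.card < m + t))
  have h2 := card_union_le (univ.filter (fun s : Finset (Fin (2 * m)) => m + t ≤ s.card))
      (univ.filter (fun s : Finset (Fin (2 * m)) => s.card + t ≤ m))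
  have h3 := mid_card m t
  have h4 := heavy_low m t
  have h5 := heavy_card m t
  have h6 : (univ : Finset (Finset (Fin (2 * m)))).card = 4 ^ m := by
    rw [card_univ, Fintype.card_finset, Fintype.card_fin, pow_mul]
    norm_num
  omega

/-- density of the heavy vectors -/
lemma heavy_dense {α : ℝ} (hα : α < 1 / 2) (t : ℕ) :
    ∃ m₀ : ℕ, ∀ m ≥ m₀, α * (2 : ℝ) ^ (2 * m) ≤ (heavy m t).card := by
  obtain ⟨m₀, hm₀⟩ := exists_nat_gt ((2 * t) ^ 2 / (1 - 2 * α) ^ 2)
  refine ⟨m₀, fun m hm => ?_⟩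
  have hδ : 0 < 1 - 2 * α := by linarith
  have h1 : ((4 : ℝ)) ^ m ≤ 2 * (heavy m t).card + 2 * t * Nat.centralBinom m := by
    exact_mod_cast heavy_ge m t
  have h2 : (2 * m + 1 : ℝ) * (Nat.centralBinom m : ℝ) ^ 2 ≤ 16 ^ m := by
    exact_mod_cast cb_bound m
  have h3 : (2 * t : ℝ) ^ 2 ≤ (1 - 2 * α) ^ 2 * (2 * m + 1) := by
    rw [div_lt_iff₀ (by positivity)] at hm₀
    have : (m₀ : ℝ) ≤ m := by exact_mod_cast hm
    nlinarith [sq_nonneg (1 - 2 * α), mul_pos hδ hδ, Nat.cast_nonneg (α := ℝ) m]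
  have h4 : (2 * t * Nat.centralBinom m : ℝ) ^ 2 ≤ ((1 - 2 * α) * 4 ^ m) ^ 2 := by
    have e : ((4 : ℝ) ^ m) ^ 2 = 16 ^ m := by
      rw [← pow_mul, mul_comm, pow_mul]; norm_num
    calc (2 * t * Nat.centralBinom m : ℝ) ^ 2
        = (2 * t : ℝ) ^ 2 * (Nat.centralBinom m : ℝ) ^ 2 := by ring
      _ ≤ ((1 - 2 * α) ^ 2 * (2 * m + 1)) * (Nat.centralBinom m : ℝ) ^ 2 := by gcongr
      _ = (1 - 2 * α) ^ 2 * ((2 * m + 1) * (Nat.centralBinom m : ℝ) ^ 2) := by ring
      _ ≤ (1 - 2 * α) ^ 2 * 16 ^ m := by gcongr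
      _ = ((1 - 2 * α) * 4 ^ m) ^ 2 := by rw [mul_pow, e]
  have h5 : (2 * t * Nat.centralBinom m : ℝ) ≤ (1 - 2 * α) * 4 ^ m :=
    le_of_sq_le_sq h4 (by positivity)
  have e : (2 : ℝ) ^ (2 * m) = 4 ^ m := by rw [pow_mul]; norm_num
  rw [e]
  linarith

/-- If all elements of a subring of `(ZMod 2)^n` have at most `n - s` nonzero coordinates, then its
index is at least `2^s`. -/
lemma subring_small {n s : ℕ} (R₀ : NonUnitalSubring (Fin n → ZMod 2))
    (h : ∀ x ∈ R₀, (supp x).card + s ≤ n) : 2 ^ s * Nat.card R₀ ≤ 2 ^ n := by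
  classical
  -- an element of maximal support
  obtain ⟨x, hx, hmax⟩ := Finset.exists_max_image
    (univ.filter (fun x : Fin n → ZMod 2 => x ∈ R₀)) (fun x => (supp x).card)
    ⟨0, by simp [R₀.zero_mem]⟩
  simp only [mem_filter, mem_univ, true_and] at hx hmax
  have hsub : ∀ y ∈ R₀, supp y ⊆ supp x := by
    intro y hy
    have h1 : x + y + x * y ∈ R₀ := R₀.add_mem (R₀.add_mem hx hy) (R₀.mul_mem hx hy)
    have h2 := hmax _ h1
    rw [supp_union] at h2
    have h3 : supp x = supp x ∪ supp y := eq_of_subset_of_card_le subset_union_left h2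
    rw [h3]
    exact subset_union_right
  have hcard : Nat.card R₀ ≤ 2 ^ (supp x).card := by
    have h1 : Nat.card R₀ = (univ.filter (fun y : Fin n → ZMod 2 => y ∈ R₀)).card := by
      rw [Nat.card_eq_fintype_card, Fintype.card_subtype]
    rw [h1, ← card_powerset]
    apply card_le_card_of_injOn supp
    · intro y hy
      simp only [coe_filter, mem_univ, true_and, Set.mem_ofPred_eq] at hy
      simpa using hsub y hy
    · intro a _ b _ hab
      exact supp_inj hab
  calc 2 ^ s * Nat.card R₀ ≤ 2 ^ s * 2 ^ (supp x).card := by gcongr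
    _ = 2 ^ ((supp x).card + s) := by rw [← pow_add, add_comm]
    _ ≤ 2 ^ n := Nat.pow_le_pow_right (by norm_num) (h x hx)

/-- For every density `α < 1/2` and all `N`, `k` there are `n ≥ N` and a set `E` of at least
`α 2^n` elements of the ring `(ZMod 2)^n` such that every subring contained in
`(E - E) * (E - E)` has index greater than `k`. -/
lemma main {α : ℝ} (hα : α < 1 / 2) (N k : ℕ) :
    ∃ n : ℕ, N ≤ n ∧ ∃ E : Finset (Fin n → ZMod 2), α * (2 : ℝ) ^ n ≤ (E.card : ℝ) ∧
      ∀ R₀ : NonUnitalSubring (Fin n → ZMod 2),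
        (R₀ : Set (Fin n → ZMod 2)) ⊆
          ((E : Set (Fin n → ZMod 2)) - E) * ((E : Set (Fin n → ZMod 2)) - E) →
        k * Nat.card R₀ < 2 ^ n := by
  obtain ⟨m₀, hm₀⟩ := heavy_dense hα k
  obtain ⟨m, hm1, hm2⟩ : ∃ m, m₀ ≤ m ∧ N ≤ m := ⟨max m₀ N, le_max_left _ _, le_max_right _ _⟩
  refine ⟨2 * m, by omega, heavy m k, hm₀ _ hm1, ?_⟩
  intro R₀ hR₀
  have h : ∀ x ∈ R₀, (supp x).card + 2 * k ≤ 2 * m := by
    intro x hx
    obtain ⟨a, ha, b, -, hab⟩ := hR₀ hx
    obtain ⟨u, hu, v, hv, huv⟩ := ha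
    have h1 := supp_sub (mem_coe.1 hu) (mem_coe.1 hv)
    have h2 : supp x ⊆ supp (u - v) := by
      rw [← hab, ← huv]
      exact supp_mul _ _
    have h3 := card_le_card h2
    omega
  have h1 := subring_small R₀ h
  have h2 : 0 < Nat.card R₀ := Nat.card_pos
  have h3 : k < 2 ^ (2 * k) := by
    calc k < 2 ^ k := Nat.lt_two_pow_self
      _ ≤ 2 ^ (2 * k) := Nat.pow_le_pow_right (by norm_num) (by omega)
  calc k * Nat.card R₀ < 2 ^ (2 * k) * Nat.card R₀ := by gcongr
    _ ≤ 2 ^ (2 * m) := h1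

/-- **Main theorem.** (1) For every density `α < 1/2` the property asked for fails, already in the
rings `(ZMod 2)^n`. (2) The answer to Q1 is negative. -/
theorem result :
    (∀ α : ℝ, α < 1 / 2 → ∀ N k : ℕ,
      ∃ n : ℕ, N ≤ n ∧ ∃ E : Finset (Fin n → ZMod 2), α * (2 : ℝ) ^ n ≤ (E.card : ℝ) ∧
        ∀ R₀ : NonUnitalSubring (Fin n → ZMod 2),
          (R₀ : Set (Fin n → ZMod 2)) ⊆
            ((E : Set (Fin n → ZMod 2)) - E) * ((E : Set (Fin n → ZMod 2)) - E) →
          k * Nat.card R₀ < 2 ^ n) ∧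
    ¬ ∀ α : ℝ, 0 < α → ∃ N k : ℕ, ∀ (R : Type) [CommRing R] [Fintype R],
      N ≤ Fintype.card R → ∀ E : Finset R, α * (Fintype.card R : ℝ) ≤ (E.card : ℝ) →
        ∃ R₀ : NonUnitalSubring R,
          (R₀ : Set R) ⊆ ((E : Set R) - E) * ((E : Set R) - E) ∧
          (Fintype.card R : ℝ) / (Nat.card R₀ : ℝ) ≤ (k : ℝ) := by
  refine ⟨fun α hα N k => main hα N k, fun hQ => ?_⟩
  obtain ⟨N, k, h⟩ := hQ (1 / 3) (by norm_num)
  obtain ⟨n, hn, E, hE, hR⟩ := main (α := 1 / 3) (by norm_num) N k
  have hc : Fintype.card (Fin n → ZMod 2) = 2 ^ n := by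
    simp [ZMod.card]
  obtain ⟨R₀, h1, h2⟩ := h (Fin n → ZMod 2)
    (by rw [hc]; exact hn.trans Nat.lt_two_pow_self.le) E
    (by rw [hc]; push_cast; exact hE)
  have h3 := hR R₀ h1
  have h4 : 0 < Nat.card R₀ := Nat.card_pos
  rw [hc, div_le_iff₀ (by exact_mod_cast h4)] at h2
  have h5 : (k * Nat.card R₀ : ℝ) < 2 ^ n := by exact_mod_cast h3
  push_cast at h2
  linarith

end Pool.Agent.Results.MP_96ce97_co.BooleanRings
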